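import Pool.Agent.H34.WM.StmA

set_option autoImplicit false

/-!
# W8: the limit
-/

namespace H59.WM

open MeasureTheory Set Metric Filter Topology H82.Bil H87.BP H87.VA H82.ER H9.WM H34.WM

open scoped ComplexConjugate ENNReal NNReal

private lemma seg_iff {x r z : ℂ} :
    z ∈ segment ℝ x (x + r) ↔ ∃ s : ℝ, 0 ≤ s ∧ s ≤ 1 ∧ z = x + s * r := by
  rw [segment_eq_image']
  constructor
  · rintro ⟨s, ⟨h0, h1⟩, rfl⟩
    refine ⟨s, h0, h1, ?_⟩
    simp
  · rintro ⟨s, h0, h1, rfl⟩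
    refine ⟨s, ⟨h0, h1⟩, ?_⟩
    simp

private lemma am_meas {F : ℂ × Dir → ℝ} (hF : Measurable F) (m : ℕ) :
    StronglyMeasurable (fun x : ℂ => am m F x) := by
  have h1 : Measurable (fun p : ℂ × Dir => e p.2 ^ m * (F p : ℂ)) :=
    ((continuous_e.measurable.comp measurable_snd).pow_const m).mul
      (Complex.measurable_ofReal.comp hF)
  exact h1.stronglyMeasurable.integral_prod_right'

private lemma th_int {F : ℂ × Dir → ℝ} {M : ℝ} (hF : Measurable F) (hb : ∀ a, |F a| ≤ M)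
    (m : ℕ) (x : ℂ) : Integrable (fun θ : Dir => e θ ^ m * (F (x, θ) : ℂ)) := by
  have h1 : Measurable (fun θ : Dir => e θ ^ m * (F (x, θ) : ℂ)) :=
    (continuous_e.measurable.pow_const m).mul
      (Complex.measurable_ofReal.comp (hF.comp (measurable_const.prodMk measurable_id)))
  refine Integrable.of_bound h1.aestronglyMeasurable M (ae_of_all _ fun θ => ?_)
  rw [norm_mul, norm_pow, norm_e, one_pow, one_mul, Complex.norm_real]
  exact hb _

private lemma am_bound {F : ℂ × Dir → ℝ} {M : ℝ} (hb : ∀ a, |F a| ≤ M) (m : ℕ) (x : ℂ) :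
    ‖am m F x‖ ≤ M * (volume : Measure Dir).real univ := by
  refine norm_integral_le_of_norm_le_const (ae_of_all _ fun θ => ?_)
  rw [norm_mul, norm_pow, norm_e, one_pow, one_mul, Complex.norm_real]
  exact hb _

private noncomputable def DD (F G : ℂ × Dir → ℝ) (x : ℂ) : ℝ :=
  ∫ θ : Dir, |F (x, θ) - G (x, θ)|

private lemma DD_nonneg (F G : ℂ × Dir → ℝ) (x : ℂ) : 0 ≤ DD F G x :=
  integral_nonneg fun _ => abs_nonneg _

private lemma am_diff {F G : ℂ × Dir → ℝ} {M : ℝ} (hF : Measurable F) (hG : Measurable G)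
    (hbF : ∀ a, |F a| ≤ M) (hbG : ∀ a, |G a| ≤ M) (m : ℕ) (x : ℂ) :
    ‖am m F x - am m G x‖ ≤ DD F G x := by
  unfold am DD
  rw [← integral_sub (th_int hF hbF m x) (th_int hG hbG m x)]
  refine (norm_integral_le_integral_norm _).trans (le_of_eq ?_)
  refine integral_congr_ae (ae_of_all _ fun θ => ?_)
  have h1 : e θ ^ m * (F (x, θ) : ℂ) - e θ ^ m * (G (x, θ) : ℂ) =
      e θ ^ m * ((F (x, θ) - G (x, θ) : ℝ) : ℂ) := by push_cast; ring
  change ‖e θ ^ m * (F (x, θ) : ℂ) - e θ ^ m * (G (x, θ) : ℂ)‖ = |F (x, θ) - G (x, θ)|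
  rw [h1, norm_mul, norm_pow, norm_e, one_pow, one_mul, Complex.norm_real, Real.norm_eq_abs]

private lemma D_meas {F G : ℂ × Dir → ℝ} (hF : Measurable F) (hG : Measurable G) :
    StronglyMeasurable (DD F G) := by
  have h1 : Measurable (fun p : ℂ × Dir => |F p - G p|) :=
    (continuous_abs.measurable.comp (hF.sub hG))
  exact h1.stronglyMeasurable.integral_prod_right'

private lemma D_bound {F G : ℂ × Dir → ℝ} {M : ℝ} (hbF : ∀ a, |F a| ≤ M)
    (hbG : ∀ a, |G a| ≤ M) (x : ℂ) :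
    ‖DD F G x‖ ≤ (M + M) * (volume : Measure Dir).real univ := by
  refine norm_integral_le_of_norm_le_const (ae_of_all _ fun θ => ?_)
  rw [Real.norm_eq_abs, abs_abs]
  exact (abs_sub _ _).trans (add_le_add (hbF _) (hbG _))

private lemma fub {F G : ℂ × Dir → ℝ} {M : ℝ} (hF : Measurable F) (hG : Measurable G)
    (hbF : ∀ a, |F a| ≤ M) (hbG : ∀ a, |G a| ≤ M) {C : Set ℂ} (hC : volume C ≠ ⊤) :
    ∫ x in C, DD F G x = ∫ a in C ×ˢ (univ : Set Dir), |F a - G a| := by
  have hfin : volume (C ×ˢ (univ : Set Dir)) ≠ ⊤ := by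
    rw [Measure.volume_eq_prod, Measure.prod_prod]
    exact ENNReal.mul_ne_top hC (measure_ne_top _ _)
  have h1 : Measurable (fun p : ℂ × Dir => |F p - G p|) :=
    (continuous_abs.measurable.comp (hF.sub hG))
  have hi : IntegrableOn (fun p : ℂ × Dir => |F p - G p|) (C ×ˢ (univ : Set Dir))
      (volume.prod volume) := by
    rw [← Measure.volume_eq_prod]
    refine Measure.integrableOn_of_bounded (M := M + M) hfin h1.aestronglyMeasurable
      (ae_of_all _ fun p => ?_)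
    rw [Real.norm_eq_abs, abs_abs]
    exact (abs_sub _ _).trans (add_le_add (hbF _) (hbG _))
  rw [Measure.volume_eq_prod, setIntegral_prod _ hi, Measure.restrict_univ]
  rfl

private lemma shift (φ : ℂ → ℝ) (C : Set ℂ) (r : ℂ) :
    ∫ x in C, φ (x + r) = ∫ y in (fun x => x + r) '' C, φ y := by
  have h := (measurePreserving_add_right (volume : Measure ℂ) r).setIntegral_preimage_emb
    (measurableEmbedding_addRight r) φ ((fun x => x + r) '' C)
  rw [preimage_image_eq _ (add_left_injective r)] at h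
  exact h

/-- the integral of a small function over the shifted set -/
private lemma shift_le (T : Table) (r : ℂ) {D : ℂ → ℝ} {B δ : ℝ} (hD : StronglyMeasurable D)
    (h0 : ∀ x, 0 ≤ D x) (hb : ∀ x, ‖D x‖ ≤ B) (hU : ∫ x in T.U, D x ≤ δ) (t : ℝ) (ht0 : 0 ≤ t)
    (ht1 : t ≤ 1) :
    ∫ x in {x | segment ℝ x (x + r) ⊆ T.U}, D (x + (t : ℂ) * r) ≤ δ := by
  have hUfin : volume T.U ≠ ⊤ := (volU T).ne
  have hDi : IntegrableOn D T.U :=
    Measure.integrableOn_of_bounded (M := B) hUfin hD.aestronglyMeasurable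
      (ae_of_all _ fun x => hb x)
  rw [shift D _ ((t : ℂ) * r)]
  refine (setIntegral_mono_set hDi (ae_of_all _ fun x => h0 x) ?_).trans hU
  refine HasSubset.Subset.eventuallyLE ?_
  rintro _ ⟨x, hx, rfl⟩
  exact hx (seg_iff.2 ⟨t, ht0, ht1, rfl⟩)

private lemma swap_le (T : Table) (r : ℂ) {D : ℂ → ℝ} {B δ : ℝ} (hD : StronglyMeasurable D)
    (h0 : ∀ x, 0 ≤ D x) (hb : ∀ x, ‖D x‖ ≤ B) (hU : ∫ x in T.U, D x ≤ δ) :
    ∫ x in {x | segment ℝ x (x + r) ⊆ T.U}, (∫ t in (0 : ℝ)..1, D (x + (t : ℂ) * r)) ≤ δ := by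
  have hEU : {x : ℂ | segment ℝ x (x + r) ⊆ T.U} ⊆ T.U :=
    fun x hx => hx (left_mem_segment ℝ x (x + r))
  have hEfin : volume {x : ℂ | segment ℝ x (x + r) ⊆ T.U} < ⊤ :=
    (measure_mono hEU).trans_lt (volU T)
  have hcm : StronglyMeasurable (fun p : ℂ × ℝ => D (p.1 + (p.2 : ℂ) * r)) :=
    hD.comp_measurable (by fun_prop)
  have hf1 : IsFiniteMeasure (volume.restrict {x : ℂ | segment ℝ x (x + r) ⊆ T.U}) :=
    ⟨by rw [Measure.restrict_apply_univ]; exact hEfin⟩
  simp_rw [intervalIntegral.integral_of_le (zero_le_one' ℝ)]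
  rw [integral_integral_swap (f := fun (x : ℂ) (t : ℝ) => D (x + (t : ℂ) * r))
    (Integrable.of_bound hcm.aestronglyMeasurable B (ae_of_all _ fun p => hb _))]
  have h1 : ∫ _t in Ioc (0 : ℝ) 1, δ = δ := by simp
  refine le_trans ?_ h1.le
  refine setIntegral_mono_on ?_ (integrable_const _) measurableSet_Ioc ?_
  · have hsw : StronglyMeasurable (fun p : ℝ × ℂ => D (p.2 + (p.1 : ℂ) * r)) :=
      hD.comp_measurable (by fun_prop)
    refine Integrable.of_bound (hsw.integral_prod_right').aestronglyMeasurable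
      (B * (volume.restrict {x : ℂ | segment ℝ x (x + r) ⊆ T.U}).real univ)
      (ae_of_all _ fun t => ?_)
    exact norm_integral_le_of_norm_le_const (ae_of_all _ fun x => hb _)
  · intro t ht
    exact shift_le T r hD h0 hb hU t ht.1.le ht.2

private lemma rh_le (r : ℂ) (θ : Dir) : |rh r θ| ≤ ‖r‖ := by
  unfold rh
  refine (Complex.abs_re_le_norm _).trans ?_
  rw [norm_mul, norm_e, mul_one, RCLike.norm_conj]

private lemma rh_meas (r : ℂ) : Measurable (fun a : ℂ × Dir => rh r a.2) := by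
  have h : Continuous (fun a : ℂ × Dir => rh r a.2) := by
    unfold rh
    exact Complex.continuous_re.comp
      (continuous_const.mul (continuous_e.comp continuous_snd))
  exact h.measurable

/-- the weighted function -/
private noncomputable def WW (ω : ℝ) (r : ℂ) (k : ℂ × Dir → ℝ) (a : ℂ × Dir) : ℝ :=
  ω * rh r a.2 * k a

private lemma W_meas {ω : ℝ} {r : ℂ} {k : ℂ × Dir → ℝ} (hk : Measurable k) :
    Measurable (WW ω r k) := ((rh_meas r).const_mul ω).mul hk

private lemma W_bound {ω : ℝ} {r : ℂ} {k : ℂ × Dir → ℝ} {M : ℝ} (hk : ∀ a, |k a| ≤ M)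
    (a : ℂ × Dir) : |WW ω r k a| ≤ |ω| * ‖r‖ * M := by
  unfold WW
  rw [abs_mul, abs_mul]
  have h1 := rh_le r a.2
  have h2 := hk a
  have h0 : 0 ≤ M := (abs_nonneg _).trans h2
  gcongr

private lemma W_diff {ω : ℝ} {r : ℂ} {k H : ℂ × Dir → ℝ} {M : ℝ} (hk : Measurable k)
    (hH : Measurable H) (hbk : ∀ a, |k a| ≤ M) (hbH : ∀ a, |H a| ≤ M) (x : ℂ) :
    DD (WW ω r k) (WW ω r H) x ≤ |ω| * ‖r‖ * DD k H x := by
  unfold DD
  rw [← integral_const_mul]
  have hm : Measurable (fun θ : Dir => |k (x, θ) - H (x, θ)|) :=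
    continuous_abs.measurable.comp ((hk.comp (measurable_const.prodMk measurable_id)).sub
      (hH.comp (measurable_const.prodMk measurable_id)))
  have hm2 : Measurable (fun θ : Dir => |WW ω r k (x, θ) - WW ω r H (x, θ)|) :=
    continuous_abs.measurable.comp (((W_meas hk).comp (measurable_const.prodMk measurable_id)).sub
      ((W_meas hH).comp (measurable_const.prodMk measurable_id)))
  refine integral_mono ?_ ?_ fun θ => ?_
  · refine Integrable.of_bound hm2.aestronglyMeasurable (|ω| * ‖r‖ * M + |ω| * ‖r‖ * M)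
      (ae_of_all _ fun θ => ?_)
    rw [Real.norm_eq_abs, abs_abs]
    exact (abs_sub _ _).trans (add_le_add (W_bound hbk _) (W_bound hbH _))
  · refine (Integrable.of_bound hm.aestronglyMeasurable (M + M)
      (ae_of_all _ fun θ => ?_)).const_mul _
    rw [Real.norm_eq_abs, abs_abs]
    exact (abs_sub _ _).trans (add_le_add (hbk _) (hbH _))
  · change |WW ω r k (x, θ) - WW ω r H (x, θ)| ≤ |ω| * ‖r‖ * |k (x, θ) - H (x, θ)|
    unfold WW
    rw [← mul_sub, abs_mul, abs_mul]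
    have h1 := rh_le r θ
    gcongr

private noncomputable def JJ (m : ℕ) (ω : ℝ) (r : ℂ) (k : ℂ × Dir → ℝ) (x : ℂ) : ℂ :=
  ∫ t in (0 : ℝ)..1, am m (WW ω r k) (x + (t : ℂ) * r)

private lemma J_meas {ω : ℝ} {r : ℂ} {k : ℂ × Dir → ℝ} (hk : Measurable k) (m : ℕ) :
    StronglyMeasurable (JJ m ω r k) := by
  have hcm : StronglyMeasurable (fun p : ℂ × ℝ => am m (WW ω r k) (p.1 + (p.2 : ℂ) * r)) :=
    (am_meas (W_meas hk) m).comp_measurable (by fun_prop)
  have h : JJ m ω r k = fun x => ∫ t, (fun p : ℂ × ℝ => am m (WW ω r k) (p.1 + (p.2 : ℂ) * r))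
      (x, t) ∂(volume.restrict (Ioc (0 : ℝ) 1)) := by
    ext x
    unfold JJ
    rw [intervalIntegral.integral_of_le (zero_le_one' ℝ)]
  rw [h]
  exact hcm.integral_prod_right'

private lemma J_bound {ω : ℝ} {r : ℂ} {k : ℂ × Dir → ℝ} {M : ℝ} (hk : ∀ a, |k a| ≤ M) (m : ℕ)
    (x : ℂ) : ‖JJ m ω r k x‖ ≤ |ω| * ‖r‖ * M * (volume : Measure Dir).real univ := by
  unfold JJ
  have h := intervalIntegral.norm_integral_le_of_norm_le_const (a := (0 : ℝ)) (b := 1)
    (f := fun t : ℝ => am m (WW ω r k) (x + (t : ℂ) * r))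
    (C := |ω| * ‖r‖ * M * (volume : Measure Dir).real univ)
    (fun t _ => am_bound (W_bound hk) m _)
  simpa using h

private lemma J_diff {ω : ℝ} {r : ℂ} {k H : ℂ × Dir → ℝ} {M : ℝ} (hk : Measurable k)
    (hH : Measurable H) (hbk : ∀ a, |k a| ≤ M) (hbH : ∀ a, |H a| ≤ M) (m : ℕ) (x : ℂ) :
    ‖JJ m ω r k x - JJ m ω r H x‖ ≤
      |ω| * ‖r‖ * ∫ t in (0 : ℝ)..1, DD k H (x + (t : ℂ) * r) := by
  unfold JJ
  have hi : ∀ k : ℂ × Dir → ℝ, Measurable k → (∀ a, |k a| ≤ M) →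
      IntervalIntegrable (fun t : ℝ => am m (WW ω r k) (x + (t : ℂ) * r)) volume 0 1 := by
    intro k hk hbk
    rw [intervalIntegrable_iff_integrableOn_Ioc_of_le (zero_le_one' ℝ)]
    refine Integrable.of_bound
      ((am_meas (W_meas hk) m).comp_measurable (by fun_prop)).aestronglyMeasurable
      (|ω| * ‖r‖ * M * (volume : Measure Dir).real univ) (ae_of_all _ fun t => ?_)
    exact am_bound (W_bound hbk) m _
  rw [← intervalIntegral.integral_sub (hi k hk hbk) (hi H hH hbH),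
    ← intervalIntegral.integral_const_mul]
  have hDi : IntervalIntegrable (fun t : ℝ => |ω| * ‖r‖ * DD k H (x + (t : ℂ) * r))
      volume 0 1 := by
    rw [intervalIntegrable_iff_integrableOn_Ioc_of_le (zero_le_one' ℝ)]
    refine (Integrable.of_bound
      ((D_meas hk hH).comp_measurable (by fun_prop)).aestronglyMeasurable
      ((M + M) * (volume : Measure Dir).real univ) (ae_of_all _ fun t => ?_)).const_mul _
    exact D_bound hbk hbH _
  refine (intervalIntegral.norm_integral_le_of_norm_le (zero_le_one' ℝ)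
    (ae_of_all _ fun t _ => ?_) hDi)
  exact (am_diff (W_meas hk) (W_meas hH) (W_bound hbk) (W_bound hbH) m _).trans
    (W_diff hk hH hbk hbH _)

private noncomputable def RR (m : ℕ) (ω : ℝ) (r : ℂ) (f k : ℂ × Dir → ℝ) (x : ℂ) : ℂ :=
  am m f (x + r) - am m f x - JJ m ω r k x

private lemma dfc_eq (T : Table) (ω : ℝ) (r : ℂ) (m : ℕ) (f k : ℂ × Dir → ℝ) :
    dfc T ω r m f k = ∫ x in {x | segment ℝ x (x + r) ⊆ T.U}, ‖RR m ω r f k x‖ ^ 2 := rfl

private lemma R_meas {ω : ℝ} {r : ℂ} {f k : ℂ × Dir → ℝ} (hf : Measurable f) (hk : Measurable k)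
    (m : ℕ) : StronglyMeasurable (RR m ω r f k) :=
  (((am_meas hf m).comp_measurable (measurable_add_const r)).sub (am_meas hf m)).sub
    (J_meas hk m)

private lemma R_bound {ω : ℝ} {r : ℂ} {f k : ℂ × Dir → ℝ} {M : ℝ} (hf : ∀ a, |f a| ≤ M)
    (hk : ∀ a, |k a| ≤ M) (m : ℕ) (x : ℂ) :
    ‖RR m ω r f k x‖ ≤ (2 + |ω| * ‖r‖) * (M * (volume : Measure Dir).real univ) := by
  have h1 := am_bound hf m (x + r)
  have h2 := am_bound hf m x
  have h3 := J_bound (ω := ω) (r := r) hk m x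
  unfold RR
  refine (norm_sub_le _ _).trans ?_
  have h4 := norm_sub_le (am m f (x + r)) (am m f x)
  nlinarith

private lemma R_diff {ω : ℝ} {r : ℂ} {f k G H : ℂ × Dir → ℝ} {M : ℝ} (hf : Measurable f)
    (hk : Measurable k) (hG : Measurable G) (hH : Measurable H) (hbf : ∀ a, |f a| ≤ M)
    (hbk : ∀ a, |k a| ≤ M) (hbG : ∀ a, |G a| ≤ M) (hbH : ∀ a, |H a| ≤ M) (m : ℕ) (x : ℂ) :
    ‖RR m ω r f k x - RR m ω r G H x‖ ≤ DD f G (x + r) + DD f G x +
      |ω| * ‖r‖ * ∫ t in (0 : ℝ)..1, DD k H (x + (t : ℂ) * r) := by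
  have e1 : RR m ω r f k x - RR m ω r G H x = ((am m f (x + r) - am m G (x + r)) -
      (am m f x - am m G x)) - (JJ m ω r k x - JJ m ω r H x) := by
    unfold RR; ring
  rw [e1]
  refine (norm_sub_le _ _).trans (add_le_add ((norm_sub_le _ _).trans (add_le_add ?_ ?_)) ?_)
  · exact am_diff hf hG hbf hbG m (x + r)
  · exact am_diff hf hG hbf hbG m x
  · exact J_diff hk hH hbk hbH m x

/-- comparison of the defects -/
private lemma comp (T : Table) (ω : ℝ) (r : ℂ) (m : ℕ) {f k G H : ℂ × Dir → ℝ} {M δ : ℝ}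
    (hf : Measurable f)
    (hk : Measurable k) (hG : Measurable G) (hH : Measurable H) (hbf : ∀ a, |f a| ≤ M)
    (hbk : ∀ a, |k a| ≤ M) (hbG : ∀ a, |G a| ≤ M) (hbH : ∀ a, |H a| ≤ M)
    (h1 : ∫ a in T.U ×ˢ (univ : Set Dir), |f a - G a| ≤ δ)
    (h2 : ∫ a in T.U ×ˢ (univ : Set Dir), |k a - H a| ≤ δ) :
    dfc T ω r m f k ≤ 2 * dfc T ω r m G H +
      4 * ((2 + |ω| * ‖r‖) * (M * (volume : Measure Dir).real univ)) *
        ((2 + |ω| * ‖r‖) * δ) := by
  rw [dfc_eq, dfc_eq]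
  have hM0 : 0 ≤ M := (abs_nonneg _).trans (hbf (0, 0))
  set B : ℝ := (2 + |ω| * ‖r‖) * (M * (volume : Measure Dir).real univ) with hB
  have hvD0 : 0 ≤ (volume : Measure Dir).real univ := measureReal_nonneg
  have hB0 : 0 ≤ B := by positivity
  set E : Set ℂ := {x : ℂ | segment ℝ x (x + r) ⊆ T.U} with hE
  have hEU : E ⊆ T.U := fun x hx => hx (left_mem_segment ℝ x (x + r))
  have hUfin : volume T.U ≠ ⊤ := (volU T).ne
  have hEfin : volume E ≠ ⊤ := ((measure_mono hEU).trans_lt (volU T)).ne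
  rw [← fub hf hG hbf hbG hUfin] at h1
  rw [← fub hk hH hbk hbH hUfin] at h2
  have hi : ∀ f k : ℂ × Dir → ℝ, Measurable f → Measurable k → (∀ a, |f a| ≤ M) →
      (∀ a, |k a| ≤ M) → IntegrableOn (fun x => ‖RR m ω r f k x‖ ^ 2) E := by
    intro f k hf hk hbf hbk
    refine Measure.integrableOn_of_bounded (M := B ^ 2) hEfin
      ((R_meas hf hk m).norm.pow 2).aestronglyMeasurable (ae_of_all _ fun x => ?_)
    rw [Real.norm_eq_abs, abs_of_nonneg (by positivity)]
    exact pow_le_pow_left₀ (norm_nonneg _) (R_bound hbf hbk m x) 2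
  set J : ℂ → ℝ := fun x => ∫ t in (0 : ℝ)..1, DD k H (x + (t : ℂ) * r) with hJ
  have hp : ∀ x, ‖RR m ω r f k x‖ ^ 2 ≤ 2 * ‖RR m ω r G H x‖ ^ 2 +
      4 * B * (DD f G (x + r) + DD f G x + |ω| * ‖r‖ * J x) := by
    intro x
    set w : ℂ := RR m ω r f k x - RR m ω r G H x with hw
    have e1 : RR m ω r f k x = RR m ω r G H x + w := by rw [hw]; ring
    have e2 : ‖w‖ ≤ DD f G (x + r) + DD f G x + |ω| * ‖r‖ * J x :=
      R_diff hf hk hG hH hbf hbk hbG hbH m x
    have e3 : ‖w‖ ≤ 2 * B := by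
      have a1 := R_bound (ω := ω) (r := r) hbf hbk m x
      have a2 := R_bound (ω := ω) (r := r) hbG hbH m x
      have a3 := norm_sub_le (RR m ω r f k x) (RR m ω r G H x)
      rw [hw]
      linarith
    have e4 : ‖w‖ ^ 2 ≤ 2 * B * (DD f G (x + r) + DD f G x + |ω| * ‖r‖ * J x) := by
      rw [sq]
      exact mul_le_mul e3 e2 (norm_nonneg _) (by positivity)
    rw [e1]
    have e5 := norm_add_le (RR m ω r G H x) w
    have e6 : ‖RR m ω r G H x + w‖ ^ 2 ≤ (‖RR m ω r G H x‖ + ‖w‖) ^ 2 :=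
      pow_le_pow_left₀ (norm_nonneg _) e5 2
    nlinarith [sq_nonneg (‖RR m ω r G H x‖ - ‖w‖)]
  have hDm := D_meas hf hG
  have hDi : IntegrableOn (DD f G) E :=
    Measure.integrableOn_of_bounded (M := (M + M) * (volume : Measure Dir).real univ) hEfin
      hDm.aestronglyMeasurable (ae_of_all _ fun x => D_bound hbf hbG x)
  have hDri : IntegrableOn (fun x => DD f G (x + r)) E :=
    Measure.integrableOn_of_bounded (M := (M + M) * (volume : Measure Dir).real univ) hEfin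
      (hDm.comp_measurable (measurable_add_const r)).aestronglyMeasurable
      (ae_of_all _ fun x => D_bound hbf hbG (x + r))
  have hJi : IntegrableOn J E := by
    have hcm : StronglyMeasurable (fun p : ℂ × ℝ => DD k H (p.1 + (p.2 : ℂ) * r)) :=
      (D_meas hk hH).comp_measurable (by fun_prop)
    have h : J = fun x => ∫ t, (fun p : ℂ × ℝ => DD k H (p.1 + (p.2 : ℂ) * r))
        (x, t) ∂(volume.restrict (Ioc (0 : ℝ) 1)) := by
      ext x
      rw [hJ]
      simp only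
      rw [intervalIntegral.integral_of_le (zero_le_one' ℝ)]
    refine Measure.integrableOn_of_bounded (M := (M + M) * (volume : Measure Dir).real univ)
      hEfin ?_ (ae_of_all _ fun x => ?_)
    · rw [h]
      exact (hcm.integral_prod_right').aestronglyMeasurable
    · have h := intervalIntegral.norm_integral_le_of_norm_le_const (a := (0 : ℝ)) (b := 1)
        (f := fun t : ℝ => DD k H (x + (t : ℂ) * r))
        (C := (M + M) * (volume : Measure Dir).real univ)
        (fun t _ => D_bound hbk hbH _)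
      simpa using h
  have b1 : ∫ x in E, DD f G (x + r) ≤ δ := by
    have := shift_le T r hDm (DD_nonneg f G) (D_bound hbf hbG) h1 1 zero_le_one le_rfl
    simpa using this
  have b2 : ∫ x in E, DD f G x ≤ δ := by
    have := shift_le T r hDm (DD_nonneg f G) (D_bound hbf hbG) h1 0 le_rfl zero_le_one
    simpa using this
  have b3 : ∫ x in E, J x ≤ δ :=
    swap_le T r (D_meas hk hH) (DD_nonneg k H) (D_bound hbk hbH) h2
  have i1 : IntegrableOn (fun x => 2 * ‖RR m ω r G H x‖ ^ 2) E :=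
    (hi G H hG hH hbG hbH).const_mul 2
  have i0 : IntegrableOn (fun x => DD f G (x + r) + DD f G x) E := hDri.add hDi
  have i3 : IntegrableOn (fun x => |ω| * ‖r‖ * J x) E := hJi.const_mul _
  have i4 : IntegrableOn (fun x => DD f G (x + r) + DD f G x + |ω| * ‖r‖ * J x) E := i0.add i3
  have i2 : IntegrableOn (fun x => 4 * B * (DD f G (x + r) + DD f G x + |ω| * ‖r‖ * J x)) E :=
    i4.const_mul _
  calc ∫ x in E, ‖RR m ω r f k x‖ ^ 2
      ≤ ∫ x in E, (2 * ‖RR m ω r G H x‖ ^ 2 +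
          4 * B * (DD f G (x + r) + DD f G x + |ω| * ‖r‖ * J x)) :=
        integral_mono (hi f k hf hk hbf hbk) (Integrable.add i1 i2) fun x => hp x
    _ = 2 * (∫ x in E, ‖RR m ω r G H x‖ ^ 2) +
          4 * B * (((∫ x in E, DD f G (x + r)) + ∫ x in E, DD f G x) +
            |ω| * ‖r‖ * ∫ x in E, J x) := by
        rw [integral_add i1 i2, integral_const_mul, integral_const_mul,
          integral_add i0 i3, integral_add hDri hDi, integral_const_mul]
    _ ≤ 2 * (∫ x in E, ‖RR m ω r G H x‖ ^ 2) +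
          4 * B * ((δ + δ) + |ω| * ‖r‖ * δ) := by
        gcongr
    _ = _ := by ring

/-- comparison of the masses -/
private lemma compA (T : Table) (N : ℕ) {f k G H : ℂ × Dir → ℝ} {M δ : ℝ}
    (hf : Measurable f)
    (hk : Measurable k) (hG : Measurable G) (hH : Measurable H) (hbf : ∀ a, |f a| ≤ M)
    (hbk : ∀ a, |k a| ≤ M) (hbG : ∀ a, |G a| ≤ M) (hbH : ∀ a, |H a| ≤ M)
    (h1 : ∫ a in T.U ×ˢ (univ : Set Dir), |f a - G a| ≤ δ)
    (h2 : ∫ a in T.U ×ˢ (univ : Set Dir), |k a - H a| ≤ δ) :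
    Am T G H N ≤ 2 * Am T f k N + 8 * (M * (volume : Measure Dir).real univ) * δ := by
  have hM0 : 0 ≤ M := (abs_nonneg _).trans (hbf (0, 0))
  set P : ℝ := M * (volume : Measure Dir).real univ with hP
  have hvD0 : 0 ≤ (volume : Measure Dir).real univ := measureReal_nonneg
  have hP0 : 0 ≤ P := by positivity
  have hUfin : volume T.U ≠ ⊤ := (volU T).ne
  rw [← fub hf hG hbf hbG hUfin] at h1
  rw [← fub hk hH hbk hbH hUfin] at h2
  have hi : ∀ f : ℂ × Dir → ℝ, Measurable f → (∀ a, |f a| ≤ M) →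
      IntegrableOn (fun x => ‖am N f x‖ ^ 2) T.U := by
    intro f hf hbf
    refine Measure.integrableOn_of_bounded (M := P ^ 2) hUfin
      ((am_meas hf N).norm.pow 2).aestronglyMeasurable (ae_of_all _ fun x => ?_)
    rw [Real.norm_eq_abs, abs_of_nonneg (by positivity)]
    exact pow_le_pow_left₀ (norm_nonneg _) (am_bound hbf N x) 2
  have hDi : ∀ f G : ℂ × Dir → ℝ, Measurable f → Measurable G → (∀ a, |f a| ≤ M) →
      (∀ a, |G a| ≤ M) → IntegrableOn (DD f G) T.U := by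
    intro f G hf hG hbf hbG
    exact Measure.integrableOn_of_bounded (M := (M + M) * (volume : Measure Dir).real univ) hUfin
      (D_meas hf hG).aestronglyMeasurable (ae_of_all _ fun x => D_bound hbf hbG x)
  have hp : ∀ f G : ℂ × Dir → ℝ, Measurable f → Measurable G → (∀ a, |f a| ≤ M) →
      (∀ a, |G a| ≤ M) → ∀ x, ‖am N G x‖ ^ 2 ≤ 2 * ‖am N f x‖ ^ 2 + 4 * P * DD f G x := by
    intro f G hf hG hbf hbG x
    set w : ℂ := am N f x - am N G x with hw
    have e2 : ‖w‖ ≤ DD f G x := am_diff hf hG hbf hbG N x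
    have e3 : ‖w‖ ≤ 2 * P := by
      have a1 := am_bound hbf N x
      have a2 := am_bound hbG N x
      have a3 := norm_sub_le (am N f x) (am N G x)
      rw [hw]
      linarith
    have e4 : ‖w‖ ^ 2 ≤ 2 * P * DD f G x := by
      rw [sq]
      exact mul_le_mul e3 e2 (norm_nonneg _) (by positivity)
    have e1 : am N G x = am N f x - w := by rw [hw]; ring
    rw [e1]
    have e5 := norm_sub_le (am N f x) w
    have e6 : ‖am N f x - w‖ ^ 2 ≤ (‖am N f x‖ + ‖w‖) ^ 2 :=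
      pow_le_pow_left₀ (norm_nonneg _) e5 2
    nlinarith [sq_nonneg (‖am N f x‖ - ‖w‖)]
  unfold Am
  have i1 := hi f hf hbf
  have i2 := hi k hk hbk
  have i3 := hi G hG hbG
  have i4 := hi H hH hbH
  have d1 := hDi f G hf hG hbf hbG
  have d2 := hDi k H hk hH hbk hbH
  have s1 : IntegrableOn (fun x => ‖am N f x‖ ^ 2 + ‖am N k x‖ ^ 2) T.U := i1.add i2
  have s2 : IntegrableOn (fun x => DD f G x + DD k H x) T.U := d1.add d2
  have s3 : IntegrableOn (fun x => 2 * (‖am N f x‖ ^ 2 + ‖am N k x‖ ^ 2)) T.U :=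
    s1.const_mul _
  have s4 : IntegrableOn (fun x => 4 * P * (DD f G x + DD k H x)) T.U := s2.const_mul _
  calc ∫ x in T.U, (‖am N G x‖ ^ 2 + ‖am N H x‖ ^ 2)
      ≤ ∫ x in T.U, (2 * (‖am N f x‖ ^ 2 + ‖am N k x‖ ^ 2) +
          4 * P * (DD f G x + DD k H x)) := by
        refine integral_mono (Integrable.add i3 i4) (Integrable.add s3 s4) fun x => ?_
        have a1 := hp f G hf hG hbf hbG x
        have a2 := hp k H hk hH hbk hbH x
        change ‖am N G x‖ ^ 2 + ‖am N H x‖ ^ 2 ≤ 2 * (‖am N f x‖ ^ 2 + ‖am N k x‖ ^ 2) +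
          4 * P * (DD f G x + DD k H x)
        linarith
    _ = 2 * (∫ x in T.U, (‖am N f x‖ ^ 2 + ‖am N k x‖ ^ 2)) +
          4 * P * ((∫ x in T.U, DD f G x) + ∫ x in T.U, DD k H x) := by
        rw [integral_add s3 s4, integral_const_mul, integral_const_mul, integral_add d1 d2]
    _ ≤ 2 * (∫ x in T.U, (‖am N f x‖ ^ 2 + ‖am N k x‖ ^ 2)) + 4 * P * (δ + δ) := by
        gcongr
    _ = _ := by ring

private lemma coeff_eq {g : Dir → ℝ} (n : ℕ) :
    fourierCoeff (fun θ : Dir => (g θ : ℂ)) (-(n : ℤ)) =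
      (2 * Real.pi)⁻¹ • ∫ θ : Dir, e θ ^ n * (g θ : ℂ) := by
  have h1 : ∀ θ : Dir, fourier (T := 2 * Real.pi) (n : ℤ) θ = e θ ^ n := by
    intro θ
    rw [fourier_apply, natCast_zsmul]
    induction n with
    | zero => simp
    | succ n ih => rw [succ_nsmul, AddCircle.toCircle_add, Circle.coe_mul, ih, pow_succ]; rfl
  unfold fourierCoeff
  rw [AddCircle.integral_haarAddCircle, neg_neg]
  simp_rw [h1, smul_eq_mul]

private lemma fc_tendsto {g : Dir → ℝ} (hg : MemLp g 2) :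
    Tendsto (fun n : ℕ => ‖∫ θ : Dir, e θ ^ n * (g θ : ℂ)‖ ^ 2) atTop (𝓝 0) := by
  have h0 : MemLp (fun θ : Dir => (g θ : ℂ)) 2 AddCircle.haarAddCircle :=
    memLp_haarAddCircle_iff.mpr hg.ofReal
  have hs := hasSum_sq_fourierCoeff (h0.toLp _)
  rw [fourierCoeff_congr_ae h0.coeFn_toLp] at hs
  have h1 := hs.summable.tendsto_cofinite_zero
  have hinj : Function.Injective (fun n : ℕ => -(n : ℤ)) := by
    intro a b h
    simpa using h
  have h2 := h1.comp hinj.tendsto_cofinite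
  rw [Nat.cofinite_eq_atTop] at h2
  have h3 : ∀ n : ℕ, ‖∫ θ : Dir, e θ ^ n * (g θ : ℂ)‖ ^ 2 = (2 * Real.pi) ^ 2 *
      ‖fourierCoeff (fun θ : Dir => (g θ : ℂ)) (-(n : ℤ))‖ ^ 2 := by
    intro n
    have hp : (0 : ℝ) < 2 * Real.pi := by positivity
    rw [coeff_eq, norm_smul, Real.norm_of_nonneg (inv_nonneg.mpr hp.le), ← mul_pow, ← mul_assoc,
      mul_inv_cancel₀ hp.ne', one_mul]
  simp_rw [h3]
  have h4 := h2.const_mul ((2 * Real.pi) ^ 2)
  rw [mul_zero] at h4
  exact h4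

/-- the modes tend to zero -/
private lemma A_tendsto (T : Table) {f k : ℂ × Dir → ℝ} {M : ℝ} (hf : Measurable f)
    (hk : Measurable k) (hbf : ∀ a, |f a| ≤ M) (hbk : ∀ a, |k a| ≤ M) :
    Tendsto (fun N => Am T f k N) atTop (𝓝 0) := by
  have hUfin : volume T.U < ⊤ := volU T
  have hfin : IsFiniteMeasure (volume.restrict T.U) :=
    ⟨by rw [Measure.restrict_apply_univ]; exact hUfin⟩
  have ht : ∀ f : ℂ × Dir → ℝ, Measurable f → (∀ a, |f a| ≤ M) → ∀ x : ℂ,
      Tendsto (fun N => ‖am N f x‖ ^ 2) atTop (𝓝 0) := by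
    intro f hf hbf x
    refine fc_tendsto (g := fun θ => f (x, θ)) ?_
    exact MemLp.of_bound
      (hf.comp (measurable_const.prodMk measurable_id)).aestronglyMeasurable M
      (ae_of_all _ fun θ => hbf _)
  have h0 : (0 : ℝ) = ∫ _x in T.U, (0 : ℝ) := by simp
  rw [h0]
  unfold Am
  refine tendsto_integral_of_dominated_convergence
    (fun _ => (M * (volume : Measure Dir).real univ) ^ 2 +
      (M * (volume : Measure Dir).real univ) ^ 2) (fun N => ?_) (integrable_const _)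
    (fun N => ae_of_all _ fun x => ?_) (ae_of_all _ fun x => ?_)
  · exact (((am_meas hf N).norm.pow 2).add ((am_meas hk N).norm.pow 2)).aestronglyMeasurable
  · rw [Real.norm_eq_abs, abs_of_nonneg (by positivity)]
    exact add_le_add (pow_le_pow_left₀ (norm_nonneg _) (am_bound hbf N x) 2)
      (pow_le_pow_left₀ (norm_nonneg _) (am_bound hbk N x) 2)
  · have := (ht f hf hbf x).add (ht k hk hbk x)
    simpa using this

private lemma A_nonneg (T : Table) (f k : ℂ × Dir → ℝ) (N : ℕ) : 0 ≤ Am T f k N :=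
  integral_nonneg fun x => by positivity

/-- the final step -/
private lemma fin_step {d c a0 : ℝ} {a Q : ℕ → ℝ} (n0 : ℕ) (hd : 0 ≤ d) (ha : Tendsto a atTop (𝓝 0))
    (hQ : ∀ N, 0 ≤ Q N) (h : ∀ N, n0 ≤ N → ∀ δ : ℝ, 0 < δ → d ≤ c * a N + δ * Q N) :
    d = 0 := by
  have h1 : ∀ N, n0 ≤ N → d ≤ c * a N := by
    intro N hN
    refine le_of_forall_pos_le_add fun ε hε => ?_
    have hc : 0 < Q N + 1 := by linarith [hQ N]
    refine (h N hN (ε / (Q N + 1)) (by positivity)).trans ?_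
    have h2 : ε / (Q N + 1) * Q N ≤ ε := by
      rw [div_mul_eq_mul_div, div_le_iff₀ hc]
      nlinarith [hQ N]
    linarith
  refine le_antisymm ?_ hd
  have h2 : Tendsto (fun N => c * a N) atTop (𝓝 (c * 0)) := ha.const_mul c
  rw [mul_zero] at h2
  refine ge_of_tendsto h2 ?_
  filter_upwards [eventually_ge_atTop n0] with N hN
  exact h1 N hN

/-- The limit. -/
theorem pieceLimK : H34.WM.PieceLimK := by
  intro T ω C f k M hf hk hbf hbk hC hH r m
  have hM0 : 0 ≤ M := (abs_nonneg _).trans (hbf (0, 0))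
  set P : ℝ := M * (volume : Measure Dir).real univ with hP
  have hvD0 : 0 ≤ (volume : Measure Dir).real univ := measureReal_nonneg
  have hP0 : 0 ≤ P := by positivity
  have hA := A_tendsto T hf hk hbf hbk
  set Q : ℕ → ℝ := fun N => 2 * (C * ‖r‖ ^ 2 * (ω ^ 2 * (8 * P) + ((N : ℝ) + 1))) +
    4 * ((2 + |ω| * ‖r‖) * P) * (2 + |ω| * ‖r‖) with hQ
  have hQ0 : ∀ N, 0 ≤ Q N := fun N => by rw [hQ]; positivity
  have main : ∀ (d : ℝ) (N : ℕ) (δ y : ℝ), 0 < δ →
      ∀ G H : ℂ × Dir → ℝ, Am T G H N ≤ 2 * Am T f k N + 8 * P * δ →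
      d ≤ 2 * y + 4 * ((2 + |ω| * ‖r‖) * P) * ((2 + |ω| * ‖r‖) * δ) →
      y ≤ C * ‖r‖ ^ 2 * (ω ^ 2 * Am T G H N + ((N : ℝ) + 1) * δ) →
      d ≤ (4 * C * ‖r‖ ^ 2 * ω ^ 2) * Am T f k N + δ * Q N := by
    intro d N δ y hδ G H hAm hd hy
    have h1 : C * ‖r‖ ^ 2 * (ω ^ 2 * Am T G H N + ((N : ℝ) + 1) * δ) ≤
        C * ‖r‖ ^ 2 * (ω ^ 2 * (2 * Am T f k N + 8 * P * δ) + ((N : ℝ) + 1) * δ) := by
      gcongr
    have h2 : d ≤ 2 * (C * ‖r‖ ^ 2 * (ω ^ 2 * (2 * Am T f k N + 8 * P * δ) +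
        ((N : ℝ) + 1) * δ)) + 4 * ((2 + |ω| * ‖r‖) * P) * ((2 + |ω| * ‖r‖) * δ) := by
      linarith
    refine h2.trans (le_of_eq ?_)
    rw [hQ]
    ring
  constructor
  · refine fin_step (a0 := 0) (c := 4 * C * ‖r‖ ^ 2 * ω ^ 2) (m + 1)
      (integral_nonneg fun x => by positivity) hA hQ0 ?_
    intro N hN δ hδ
    obtain ⟨G, H, hGm, hHm, hGb, hHb, hfG, hkH, hall⟩ := hH δ hδ
    have h1 := comp T (-ω) r m hf hk hGm hHm hbf hbk hGb hHb hfG hkH
    rw [abs_neg] at h1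
    exact main _ N δ _ hδ G H (compA T N hf hk hGm hHm hbf hbk hGb hHb hfG hkH) h1
      (hall r m N hN).1
  · refine fin_step (a0 := 0) (c := 4 * C * ‖r‖ ^ 2 * ω ^ 2) (m + 1)
      (integral_nonneg fun x => by positivity) hA hQ0 ?_
    intro N hN δ hδ
    obtain ⟨G, H, hGm, hHm, hGb, hHb, hfG, hkH, hall⟩ := hH δ hδ
    have h1 := comp T ω r m hk hf hHm hGm hbk hbf hHb hGb hkH hfG
    exact main _ N δ _ hδ G H (compA T N hf hk hGm hHm hbf hbk hGb hHb hfG hkH) h1
      (hall r m N hN).2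

end H59.WM
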